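import Mathlib

/-!
MP_42de19_nt, Q1: the semi-algebraic form of Mazur's conjecture for all varieties over `ℚ` is
equivalent to the same for the smooth affine hypersurfaces `y ^ 2 = 1 + h(z) ^ 4`, where `h` is a sum
of squares of quadratic forms. These hypersurfaces are double coverings of affine spaces whose real
points are two copies of `ℝ ^ N` (the graphs of `± √(1 + h ^ 4)`).

Let `V` be an affine variety over `ℚ`, given by polynomials `f` with exponents at most `d`. The
monomials `z_μ = x ^ μ` with exponents at most `d` satisfy the quadratic equations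
`z_0 z_(μ + e_i) = z_(e_i) z_μ`, `z_0 ∑_μ coeff_μ(f) z_μ = 0`; let `h` be the sum of the squares of
these quadratic forms. By Fermat's theorem on `a ^ 4 + b ^ 4 = c ^ 2`, the rational points of
`y ^ 2 = 1 + h ^ 4` are the points with `y = ± 1` and `h = 0`, and those with `z_0 ≠ 0` are
`z = c (x ^ μ)_μ`, `x` a rational point of `V`. A real point `x` is a limit of rational points of `V` if
and only if `((x ^ μ)_μ, 1)` is a limit of rational points of the hypersurface.
-/

set_option autoImplicit false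

namespace Pool.Agent.Results.MP_42de19_nt.PositiveDoubleCovers

open MvPolynomial

/-- The rational points of the affine variety given by the polynomials in `F`, as points of
`ℝ ^ n`. -/
def ratPoints {n : ℕ} (F : Finset (MvPolynomial (Fin n) ℚ)) : Set (Fin n → ℝ) :=
  {x | ∃ q : Fin n → ℚ, (∀ f ∈ F, eval q f = 0) ∧ ∀ i, x i = (q i : ℝ)}

/-- `A` is a finite union of sets `{p = 0, g > 0 for all g in G}`, where `p` and the `g` are
polynomials over `ℚ`. -/
def Semialgebraic {n : ℕ} (A : Set (Fin n → ℝ)) : Prop :=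
  ∃ (m : ℕ) (P : Fin m → MvPolynomial (Fin n) ℚ) (G : Fin m → Finset (MvPolynomial (Fin n) ℚ)),
    A = {x : Fin n → ℝ | ∃ j : Fin m, (aeval x (P j) : ℝ) = 0 ∧ ∀ g ∈ G j, (0 : ℝ) < aeval x g}

/-- `h` is a sum of squares of quadratic forms. -/
def SumOfSquares {n : ℕ} (h : MvPolynomial (Fin n) ℚ) : Prop :=
  ∃ (κ : Type) (_ : Fintype κ) (q : κ → MvPolynomial (Fin n) ℚ),
    (∀ k, (q k).IsHomogeneous 2) ∧ h = ∑ k, q k ^ 2

/-- The polynomial `y ^ 2 - 1 - h ^ 4` in `n + 1` variables, `y` is the last one. -/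
noncomputable def cover {n : ℕ} (h : MvPolynomial (Fin n) ℚ) : MvPolynomial (Fin (n + 1)) ℚ :=
  X (Fin.last n) ^ 2 - 1 - rename Fin.castSucc h ^ 4

section basics

variable {n : ℕ}

theorem SumOfSquares.hom {h : MvPolynomial (Fin n) ℚ} (hh : SumOfSquares h) :
    h.IsHomogeneous 4 := by
  obtain ⟨κ, _, q, hq, rfl⟩ := hh
  exact IsHomogeneous.sum _ _ _ fun k _ => by simpa using (hq k).pow 2

theorem aeval_cover {L : Type} [Field L] [Algebra ℚ L] (h : MvPolynomial (Fin n) ℚ)
    (x : Fin (n + 1) → L) :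
    aeval x (cover h) = x (Fin.last n) ^ 2 - 1 - aeval (fun i => x (Fin.castSucc i)) h ^ 4 := by
  unfold cover
  rw [map_sub, map_sub, map_pow, map_pow, aeval_X, map_one, aeval_rename]
  rfl

/-- the hypersurface is smooth -/
theorem smooth {h : MvPolynomial (Fin n) ℚ} (hh : SumOfSquares h) (L : Type) [Field L]
    [Algebra ℚ L] (x : Fin (n + 1) → L) (hx : aeval x (cover h) = 0) :
    ∃ i, aeval x (pderiv i (cover h)) ≠ 0 := by
  have hc : CharZero L := algebraRat.charZero L
  by_contra hcon
  push Not at hcon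
  have h1 : ∀ i, pderiv (Fin.castSucc i) (cover h) =
      - (4 * rename Fin.castSucc h ^ 3 * rename Fin.castSucc (pderiv i h)) := by
    intro i
    unfold cover
    rw [map_sub, map_sub, pderiv_one, pderiv_pow, pderiv_pow,
      pderiv_X_of_ne (Fin.castSucc_lt_last i).ne', pderiv_rename (Fin.castSucc_injective n)]
    push_cast
    ring
  have h2 : pderiv (Fin.last n) (cover h) = 2 * X (Fin.last n) := by
    unfold cover
    have h3 : pderiv (Fin.last n) (rename Fin.castSucc h) = 0 := by
      refine pderiv_eq_zero_of_notMem_vars fun h4 => ?_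
      obtain ⟨i, -, hi⟩ := Finset.mem_image.1 (vars_rename _ _ h4)
      exact (Fin.castSucc_lt_last i).ne hi
    rw [map_sub, map_sub, pderiv_one, pderiv_pow, pderiv_pow, pderiv_X_self, h3]
    push_cast
    ring
  have e2 : x (Fin.last n) = 0 := by
    have := hcon (Fin.last n)
    rw [h2, map_mul, aeval_X, map_ofNat] at this
    exact (mul_eq_zero.1 this).resolve_left two_ne_zero
  set z : Fin n → L := fun i => x (Fin.castSucc i) with hz
  rw [aeval_cover, e2] at hx
  have e3 : aeval z h ≠ 0 := by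
    intro h0
    rw [h0] at hx
    norm_num at hx
  have e4 : ∀ i, aeval z (pderiv i h) = 0 := by
    intro i
    have := hcon (Fin.castSucc i)
    rw [h1, map_neg, map_mul, map_mul, map_pow, map_ofNat, aeval_rename, aeval_rename,
      neg_eq_zero] at this
    exact (mul_eq_zero.1 this).resolve_left (mul_ne_zero (by norm_num) (pow_ne_zero 3 e3))
  have h5 := congrArg (aeval z) hh.hom.sum_X_mul_pderiv
  rw [map_sum, map_nsmul] at h5
  rw [Finset.sum_eq_zero fun i _ => by rw [map_mul, e4 i, mul_zero]] at h5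
  have h6 : (4 : ℕ) • aeval z h = 0 := h5.symm
  rw [nsmul_eq_mul] at h6
  exact (mul_ne_zero (by norm_num) e3) h6

/-- the real points -/
theorem real_points (h : MvPolynomial (Fin n) ℚ) (x : Fin (n + 1) → ℝ) :
    aeval x (cover h) = 0 ↔
      x (Fin.last n) = √(1 + aeval (fun i => x (Fin.castSucc i)) h ^ 4) ∨
      x (Fin.last n) = -√(1 + aeval (fun i => x (Fin.castSucc i)) h ^ 4) := by
  rw [aeval_cover]
  set t : ℝ := aeval (fun i => x (Fin.castSucc i)) h
  have h1 : 0 ≤ 1 + t ^ 4 := by positivity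
  rw [← sq_eq_sq_iff_eq_or_eq_neg, Real.sq_sqrt h1]
  constructor <;> intro h2 <;> linarith

/-- Fermat's theorem: the rational points of `y ^ 2 = 1 + t ^ 4` -/
theorem fermat {y t : ℚ} (h : y ^ 2 = 1 + t ^ 4) : t = 0 ∧ (y = 1 ∨ y = -1) := by
  have ht : t = 0 := by
    by_contra ht
    have hq : (t.den : ℚ) ≠ 0 := by exact_mod_cast t.den_nz
    have h1 : t * t.den = t.num := Rat.mul_den_eq_num t
    have h2 : (y * t.den ^ 2) ^ 2 = ((t.den ^ 4 + t.num ^ 4 : ℤ) : ℚ) := by
      push_cast
      rw [← h1, mul_pow, h]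
      ring
    obtain ⟨c, hc⟩ : ∃ c : ℤ, (c : ℚ) = y * t.den ^ 2 := by
      have h3 : IsIntegral ℤ (y * (t.den : ℚ) ^ 2) := by
        refine IsIntegral.of_pow (n := 2) (by norm_num) ?_
        rw [h2]
        exact isIntegral_algebraMap (x := (t.den ^ 4 + t.num ^ 4 : ℤ))
      exact IsIntegrallyClosed.isIntegral_iff.1 h3
    rw [← hc] at h2
    have h4 : (t.den : ℤ) ^ 4 + t.num ^ 4 = c ^ 2 := by exact_mod_cast h2.symm
    exact not_fermat_42 (by exact_mod_cast t.den_nz) (Rat.num_ne_zero.2 ht) h4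
  refine ⟨ht, ?_⟩
  rw [ht] at h
  have : (y - 1) * (y + 1) = 0 := by linear_combination h
  rcases mul_eq_zero.1 this with h1 | h1
  · exact Or.inl (by linarith)
  · exact Or.inr (by linarith)

theorem rat_points (h : MvPolynomial (Fin n) ℚ) (x : Fin (n + 1) → ℚ) :
    eval x (cover h) = 0 ↔ (x (Fin.last n) = 1 ∨ x (Fin.last n) = -1) ∧
      eval (fun i => x (Fin.castSucc i)) h = 0 := by
  have h1 := aeval_cover (L := ℚ) h x
  rw [← coe_aeval_eq_eval, ← coe_aeval_eq_eval]
  simp only [RingHom.coe_coe]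
  rw [h1]
  constructor
  · intro h2
    obtain ⟨h3, h4⟩ := fermat (y := x (Fin.last n))
      (t := aeval (fun i => x (Fin.castSucc i)) h) (by linear_combination h2)
    exact ⟨h4, h3⟩
  · rintro ⟨h2, h3⟩
    rw [h3]
    rcases h2 with h2 | h2 <;> rw [h2] <;> norm_num

end basics

section monomials

variable {n d : ℕ}

/-- the exponent vectors -/
abbrev M (n d : ℕ) : Type := Fin n → Fin (d + 1)

/-- as a finitely supported function -/
noncomputable def toF (μ : M n d) : Fin n →₀ ℕ :=
  Finsupp.equivFunOnFinite.symm fun i => (μ i : ℕ)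

theorem toF_apply (μ : M n d) (i : Fin n) : toF μ i = (μ i : ℕ) := rfl

theorem toF_injective : Function.Injective (toF : M n d → _) := by
  intro μ ν h
  funext i
  exact Fin.ext (by rw [← toF_apply, h, toF_apply])

theorem eval_eq_M {R : Type} [Field R] [Algebra ℚ R] {f : MvPolynomial (Fin n) ℚ}
    (hf : ∀ s ∈ f.support, ∀ i, s i ≤ d) (x : Fin n → R) :
    aeval x f = ∑ μ : M n d, algebraMap ℚ R (coeff (toF μ) f) * ∏ i, x i ^ (μ i : ℕ) := by
  classical
  have h1 : ∑ μ : M n d, algebraMap ℚ R (coeff (toF μ) f) * ∏ i, x i ^ (μ i : ℕ) =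
      ∑ s ∈ Finset.univ.image (toF : M n d → _), algebraMap ℚ R (coeff s f) * ∏ i, x i ^ s i := by
    rw [Finset.sum_image fun a _ b _ h => toF_injective h]
    rfl
  rw [h1, aeval_def, eval₂_eq']
  refine Finset.sum_subset (fun s hs => ?_) fun s _ hs => ?_
  · refine Finset.mem_image.2 ⟨fun i => ⟨s i, Nat.lt_succ_of_le (hf s hs i)⟩, Finset.mem_univ _, ?_⟩
    ext i
    rfl
  · rw [notMem_support_iff.1 hs, map_zero, zero_mul]

/-- the exponent vector with `1` added at `i`, if possible -/
def add (μ : M n d) (i : Fin n) : M n d :=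
  if h : (μ i : ℕ) + 1 < d + 1 then Function.update μ i ⟨μ i + 1, h⟩ else μ

/-- the vector `e_i` -/
def one (i : Fin n) : M n d := add 0 i

theorem add_apply {μ : M n d} {i : Fin n} (h : (μ i : ℕ) + 1 < d + 1) (j : Fin n) :
    (add μ i j : ℕ) = μ j + if j = i then 1 else 0 := by
  unfold add
  rw [dif_pos h]
  rcases eq_or_ne j i with rfl | hj
  · rw [Function.update_self, if_pos rfl]
  · rw [Function.update_of_ne hj, if_neg hj]
    rfl

theorem prod_add {R : Type} [CommRing R] {μ : M n d} {i : Fin n} (h : (μ i : ℕ) + 1 < d + 1)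
    (x : Fin n → R) : ∏ j, x j ^ (add μ i j : ℕ) = x i * ∏ j, x j ^ (μ j : ℕ) := by
  have h1 : ∀ j, x j ^ (add μ i j : ℕ) = (if j = i then x i else 1) * x j ^ (μ j : ℕ) := by
    intro j
    rw [add_apply h, pow_add, mul_comm]
    congr 1
    rcases eq_or_ne j i with rfl | hj
    · rw [if_pos rfl, if_pos rfl, pow_one]
    · rw [if_neg hj, if_neg hj, pow_zero]
  rw [Finset.prod_congr rfl fun j _ => h1 j, Finset.prod_mul_distrib,
    Finset.prod_ite_eq' Finset.univ i, if_pos (Finset.mem_univ i)]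

theorem prod_one' {R : Type} [CommRing R] (hd : 1 ≤ d) (i : Fin n) (x : Fin n → R) :
    ∏ j, x j ^ ((one i : M n d) j : ℕ) = x i := by
  unfold one
  rw [prod_add (by simpa using Nat.pos_of_ne_zero (by omega))]
  simp

/-- the relations determine the `z_μ` -/
theorem lift {R : Type} [Field R] (z : M n d → R) (h0 : z 0 ≠ 0)
    (hz : ∀ (μ : M n d) (i : Fin n), (μ i : ℕ) + 1 < d + 1 → z 0 * z (add μ i) = z (one i) * z μ) :
    ∀ μ, z μ = z 0 * ∏ i, (z (one i) / z 0) ^ (μ i : ℕ) := by
  have key : ∀ (s : ℕ) (μ : M n d), ∑ i, (μ i : ℕ) = s →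
      z μ = z 0 * ∏ i, (z (one i) / z 0) ^ (μ i : ℕ) := by
    intro s
    induction s with
    | zero =>
      intro μ h
      have h1 : μ = 0 := by
        funext i
        exact Fin.ext (by simpa using Finset.sum_eq_zero_iff.1 h i (Finset.mem_univ i))
      subst h1
      simp
    | succ s ih =>
      intro μ h
      obtain ⟨i, hi⟩ : ∃ i, (μ i : ℕ) ≠ 0 := by
        by_contra hcon
        push Not at hcon
        rw [Finset.sum_eq_zero fun i _ => hcon i] at h
        omega
      set ν : M n d := Function.update μ i ⟨μ i - 1, by omega⟩ with hν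
      have hνi : (ν i : ℕ) = μ i - 1 := by rw [hν, Function.update_self]
      have hlt : (ν i : ℕ) + 1 < d + 1 := by
        have := (μ i).isLt
        omega
      have hμ : μ = add ν i := by
        funext j
        refine Fin.ext ?_
        rw [add_apply hlt]
        rcases eq_or_ne j i with rfl | hj
        · rw [if_pos rfl, hνi]
          omega
        · rw [if_neg hj, hν, Function.update_of_ne hj]
          rfl
      have hs : ∑ j, (ν j : ℕ) = s := by
        have h1 : ∑ j, (μ j : ℕ) = ∑ j, (ν j : ℕ) + 1 := by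
          rw [Finset.sum_congr rfl fun j _ => by rw [hμ, add_apply hlt], Finset.sum_add_distrib]
          simp
        omega
      have h2 := hz ν i hlt
      rw [← hμ, ih ν hs] at h2
      rw [hμ, prod_add hlt, ← hμ]
      refine mul_left_cancel₀ h0 ?_
      rw [h2]
      field_simp
  exact fun μ => key _ μ rfl

end monomials

section construction

variable {n d N : ℕ} (e : M n d ≃ Fin N) (F : Finset (MvPolynomial (Fin n) ℚ))

/-- the quadratic forms `z_0 z_(μ + e_i) - z_(e_i) z_μ` -/
noncomputable def QA (μ : M n d) (i : Fin n) : MvPolynomial (Fin N) ℚ :=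
  if (μ i : ℕ) + 1 < d + 1 then X (e 0) * X (e (add μ i)) - X (e (one i)) * X (e μ) else 0

/-- the quadratic forms `z_0 ∑_μ coeff_μ(f) z_μ` -/
noncomputable def QB (f : MvPolynomial (Fin n) ℚ) : MvPolynomial (Fin N) ℚ :=
  X (e 0) * ∑ μ : M n d, C (coeff (toF μ) f) * X (e μ)

/-- all the quadratic forms -/
noncomputable def Q : (M n d × Fin n) ⊕ F → MvPolynomial (Fin N) ℚ :=
  Sum.elim (fun p => QA e p.1 p.2) fun f => QB e f.1

theorem Q_hom (k : (M n d × Fin n) ⊕ F) : (Q e F k).IsHomogeneous 2 := by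
  rcases k with ⟨μ, i⟩ | f
  · change (QA e μ i).IsHomogeneous 2
    unfold QA
    split_ifs
    · exact ((isHomogeneous_X ℚ _).mul (isHomogeneous_X ℚ _)).sub
        ((isHomogeneous_X ℚ _).mul (isHomogeneous_X ℚ _))
    · exact isHomogeneous_zero _ _ _
  · change (QB e f.1).IsHomogeneous 2
    unfold QB
    refine (isHomogeneous_X ℚ _).mul (n := 1) (IsHomogeneous.sum _ _ _ fun μ _ => ?_)
    simpa using (isHomogeneous_C (Fin N) (coeff (toF μ) f.1)).mul (isHomogeneous_X ℚ (e μ))

/-- the sum of their squares -/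
noncomputable def H : MvPolynomial (Fin N) ℚ := ∑ k, Q e F k ^ 2

theorem H_sos : SumOfSquares (H e F) := ⟨_, inferInstance, Q e F, Q_hom e F, rfl⟩

variable {F}

theorem Q_zero (hF : ∀ f ∈ F, ∀ s ∈ f.support, ∀ i, s i ≤ d) (hd : 1 ≤ d) {R : Type} [Field R]
    [Algebra ℚ R] (x : Fin n → R) (c : R)
    (hx : ∀ f ∈ F, aeval x f = 0) (k : (M n d × Fin n) ⊕ F) :
    aeval (fun a => c * ∏ i, x i ^ (e.symm a i : ℕ)) (Q e F k) = 0 := by
  rcases k with ⟨μ, i⟩ | f
  · change aeval _ (QA e μ i) = 0
    unfold QA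
    split_ifs with h
    · simp only [map_sub, map_mul, aeval_X, Equiv.symm_apply_apply]
      rw [prod_add h, prod_one' hd]
      simp only [Pi.zero_apply, Fin.val_zero, pow_zero, Finset.prod_const_one]
      ring
    · exact map_zero _
  · change aeval _ (QB e f.1) = 0
    unfold QB
    simp only [map_mul, map_sum, aeval_X, aeval_C, Equiv.symm_apply_apply]
    have h1 := hx f.1 f.2
    rw [eval_eq_M (hF f.1 f.2)] at h1
    have h2 : ∑ μ : M n d, algebraMap ℚ R (coeff (toF μ) f.1) * (c * ∏ i, x i ^ (μ i : ℕ)) = 0 := by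
      rw [← mul_zero c, ← h1, Finset.mul_sum]
      exact Finset.sum_congr rfl fun μ _ => by ring
    rw [h2, mul_zero]

theorem Q_lift (hF : ∀ f ∈ F, ∀ s ∈ f.support, ∀ i, s i ≤ d) {R : Type} [Field R]
    [Algebra ℚ R] (z : Fin N → R) (h0 : z (e 0) ≠ 0) (hz : ∀ k, aeval z (Q e F k) = 0) :
    (∀ f ∈ F, aeval (fun i => z (e (one i)) / z (e 0)) f = 0) ∧
      ∀ μ, z (e μ) = z (e 0) * ∏ i, (z (e (one i)) / z (e 0)) ^ (μ i : ℕ) := by
  have h1 := lift (fun μ => z (e μ)) h0 fun μ i h => by
    have : aeval z (QA e μ i) = 0 := hz (Sum.inl (μ, i))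
    unfold QA at this
    rw [if_pos h] at this
    simp only [map_sub, map_mul, aeval_X] at this
    exact sub_eq_zero.1 this
  refine ⟨fun f hf => ?_, h1⟩
  have h2 : aeval z (QB e f) = 0 := hz (Sum.inr ⟨f, hf⟩)
  unfold QB at h2
  simp only [map_mul, map_sum, aeval_X, aeval_C] at h2
  have h3 := (mul_eq_zero.1 h2).resolve_left h0
  rw [eval_eq_M (hF f hf)]
  refine (mul_eq_zero.1 (?_ : z (e 0) * _ = 0)).resolve_left h0
  rw [← h3, Finset.mul_sum]
  refine Finset.sum_congr rfl fun μ _ => ?_
  rw [h1 μ]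
  ring

theorem H_zero_iff (z : Fin N → ℚ) : eval z (H e F) = 0 ↔ ∀ k, aeval z (Q e F k) = 0 := by
  unfold H
  rw [map_sum]
  simp only [map_pow]
  rw [Finset.sum_eq_zero_iff_of_nonneg fun k _ => sq_nonneg _]
  refine ⟨fun h k => ?_, fun h k _ => ?_⟩
  · have := pow_eq_zero_iff (two_ne_zero) |>.1 (h k (Finset.mem_univ k))
    rwa [← coe_aeval_eq_eval] at this
  · have := h k
    rw [← coe_aeval_eq_eval]
    simp only [RingHom.coe_coe]
    rw [this]
    norm_num

/-- the closure of the rational points -/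
theorem closure_iff (hF : ∀ f ∈ F, ∀ s ∈ f.support, ∀ i, s i ≤ d) (hd : 1 ≤ d) (x : Fin n → ℝ) :
    x ∈ closure (ratPoints F) ↔
      (Fin.snoc (α := fun _ => ℝ) (fun a : Fin N => ∏ i, x i ^ (e.symm a i : ℕ)) 1 :
        Fin (N + 1) → ℝ) ∈ closure (ratPoints {cover (H e F)}) := by
  constructor
  · intro hx
    have hcont : Continuous fun x : Fin n → ℝ =>
        (Fin.snoc (α := fun _ => ℝ) (fun a : Fin N => ∏ i, x i ^ (e.symm a i : ℕ)) 1 :
          Fin (N + 1) → ℝ) := by
      refine Continuous.finSnoc ?_ continuous_const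
      fun_prop
    refine map_mem_closure (f := fun x : Fin n → ℝ =>
        (Fin.snoc (α := fun _ => ℝ) (fun a : Fin N => ∏ i, x i ^ (e.symm a i : ℕ)) 1 :
          Fin (N + 1) → ℝ)) hcont hx ?_
    rintro v ⟨q, hq, hv⟩
    refine ⟨Fin.snoc (α := fun _ => ℚ) (fun a : Fin N => ∏ i, q i ^ (e.symm a i : ℕ)) 1, ?_, ?_⟩
    · intro f hf
      rw [Finset.mem_singleton.1 hf, rat_points]
      refine ⟨Or.inl (by rw [Fin.snoc_last]), ?_⟩
      rw [H_zero_iff]
      intro k
      have h1 := Q_zero e hF hd q 1 (fun f hf => by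
        rw [← hq f hf, ← coe_aeval_eq_eval]; rfl) k
      simp only [one_mul] at h1
      simpa only [Fin.snoc_castSucc] using h1
    · intro i
      induction i using Fin.lastCases with
      | last =>
        beta_reduce
        rw [Fin.snoc_last, Fin.snoc_last, Rat.cast_one]
      | cast a =>
        beta_reduce
        rw [Fin.snoc_castSucc, Fin.snoc_castSucc, Rat.cast_prod]
        exact Finset.prod_congr rfl fun i _ => by rw [hv i, Rat.cast_pow]
  · intro hx
    set w : Fin (N + 1) → ℝ :=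
      Fin.snoc (α := fun _ => ℝ) (fun a : Fin N => ∏ i, x i ^ (e.symm a i : ℕ)) 1 with hw
    have hw0 : w (Fin.castSucc (e 0)) = 1 := by
      rw [hw, Fin.snoc_castSucc]
      simp
    have hwi : ∀ i, w (Fin.castSucc (e (one i))) = x i := by
      intro i
      rw [hw, Fin.snoc_castSucc]
      simp only [Equiv.symm_apply_apply]
      exact prod_one' hd i x
    set U : Set (Fin (N + 1) → ℝ) := {w' | w' (Fin.castSucc (e 0)) ≠ 0} with hU
    have hUo : IsOpen U := isOpen_ne_fun (continuous_apply _) continuous_const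
    have hwU : w ∈ U := by
      show w (Fin.castSucc (e 0)) ≠ 0
      rw [hw0]
      exact one_ne_zero
    have h1 : w ∈ closure (U ∩ ratPoints {cover (H e F)}) := hUo.inter_closure ⟨hwU, hx⟩
    have h2 : ContinuousWithinAt (fun w' : Fin (N + 1) → ℝ => fun i : Fin n =>
        w' (Fin.castSucc (e (one i))) / w' (Fin.castSucc (e 0)))
        (U ∩ ratPoints {cover (H e F)}) w := by
      refine ContinuousAt.continuousWithinAt (continuousAt_pi.2 fun i => ?_)
      exact (continuous_apply _).continuousAt.div (continuous_apply _).continuousAt hwU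
    have h3 := h2.mem_closure (t := ratPoints F) h1 ?_
    · have h4 : (fun i : Fin n => w (Fin.castSucc (e (one i))) / w (Fin.castSucc (e 0))) = x := by
        funext i
        rw [hwi, hw0, div_one]
      rwa [h4] at h3
    · rintro w' ⟨hw'U, q, hq, hqw⟩
      have h5 := (rat_points _ q).1 (hq _ (Finset.mem_singleton_self _))
      have h6 := (H_zero_iff e (F := F) _).1 h5.2
      have h7 : q (Fin.castSucc (e 0)) ≠ 0 := by
        intro h8
        apply hw'U
        rw [hqw, h8, Rat.cast_zero]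
      obtain ⟨h8, -⟩ := Q_lift e hF (fun i => q (Fin.castSucc i)) h7 h6
      refine ⟨fun i => q (Fin.castSucc (e (one i))) / q (Fin.castSucc (e 0)), fun f hf => ?_,
        fun i => ?_⟩
      · have := h8 f hf
        rw [← coe_aeval_eq_eval]
        exact this
      · show w' _ / w' _ = _
        rw [hqw, hqw, Rat.cast_div]

end construction

/-- substitution in semialgebraic sets -/
theorem Semialgebraic.subst {n N : ℕ} {A : Set (Fin N → ℝ)} (hA : Semialgebraic A)
    (θ : Fin N → MvPolynomial (Fin n) ℚ) :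
    Semialgebraic {x : Fin n → ℝ | (fun j => (aeval x (θ j) : ℝ)) ∈ A} := by
  classical
  obtain ⟨m, P, G, rfl⟩ := hA
  refine ⟨m, fun j => bind₁ θ (P j), fun j => (G j).image (bind₁ θ), ?_⟩
  ext x
  simp only [Set.mem_ofPred_eq, Finset.mem_image, forall_exists_index, and_imp,
    forall_apply_eq_imp_iff₂, aeval_bind₁]

/-- **(1)** For every affine variety `V` over `ℚ`, given by the polynomials in `F`, there are finitely
many monomials `x ^ μ_a`, `a < N`, and a sum of squares `h` of quadratic forms in `N` variables such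
that a real point `x` is a limit of rational points of `V` if and only if the point
`(x ^ μ_0, …, x ^ μ_(N-1), 1)` is a limit of rational points of the hypersurface
`y ^ 2 = 1 + h(z) ^ 4`.

**(2)** For every sum of squares `h` of quadratic forms the hypersurface `y ^ 2 = 1 + h(z) ^ 4` is
smooth, its real points form the two graphs of `± √(1 + h ^ 4)` over the real affine space, and its
rational points are the rational points with `h(z) = 0`, `y = ± 1`.

**(3)** Q1 holds for all affine varieties over `ℚ` if and only if it holds for all the hypersurfaces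
`y ^ 2 = 1 + h(z) ^ 4`, where `h` is a sum of squares of quadratic forms. -/
theorem result :
    (∀ (n : ℕ) (F : Finset (MvPolynomial (Fin n) ℚ)),
      ∃ (N : ℕ) (μ : Fin N → Fin n → ℕ) (h : MvPolynomial (Fin N) ℚ), SumOfSquares h ∧
        ∀ x : Fin n → ℝ, x ∈ closure (ratPoints F) ↔
          (Fin.snoc (α := fun _ => ℝ) (fun a => ∏ i, x i ^ μ a i) 1 : Fin (N + 1) → ℝ) ∈
            closure (ratPoints {cover h})) ∧
    (∀ (N : ℕ) (h : MvPolynomial (Fin N) ℚ), SumOfSquares h →
      (∀ (L : Type) [Field L] [Algebra ℚ L] (z : Fin (N + 1) → L), aeval z (cover h) = 0 →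
        ∃ i, aeval z (pderiv i (cover h)) ≠ 0) ∧
      (∀ z : Fin (N + 1) → ℝ, aeval z (cover h) = 0 ↔
        z (Fin.last N) = √(1 + aeval (fun i => z (Fin.castSucc i)) h ^ 4) ∨
        z (Fin.last N) = -√(1 + aeval (fun i => z (Fin.castSucc i)) h ^ 4)) ∧
      ∀ z : Fin (N + 1) → ℚ, eval z (cover h) = 0 ↔
        (z (Fin.last N) = 1 ∨ z (Fin.last N) = -1) ∧ eval (fun i => z (Fin.castSucc i)) h = 0) ∧
    ((∀ (n : ℕ) (F : Finset (MvPolynomial (Fin n) ℚ)), Semialgebraic (closure (ratPoints F))) ↔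
      ∀ (N : ℕ) (h : MvPolynomial (Fin N) ℚ), SumOfSquares h →
        Semialgebraic (closure (ratPoints {cover h}))) := by
  have h1 : ∀ (n : ℕ) (F : Finset (MvPolynomial (Fin n) ℚ)),
      ∃ (N : ℕ) (μ : Fin N → Fin n → ℕ) (h : MvPolynomial (Fin N) ℚ), SumOfSquares h ∧
        ∀ x : Fin n → ℝ, x ∈ closure (ratPoints F) ↔
          (Fin.snoc (α := fun _ => ℝ) (fun a => ∏ i, x i ^ μ a i) 1 : Fin (N + 1) → ℝ) ∈
            closure (ratPoints {cover h}) := by
    intro n F
    set d : ℕ := F.sup totalDegree + 1 with hd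
    have hF : ∀ f ∈ F, ∀ s ∈ f.support, ∀ i, s i ≤ d := by
      intro f hf s hs i
      have e1 : f.totalDegree ≤ F.sup totalDegree := Finset.le_sup (f := totalDegree) hf
      have e2 : (s.sum fun _ e => e) ≤ f.totalDegree := le_totalDegree hs
      have e3 : s i ≤ s.sum fun _ e => e := by
        by_cases hi : i ∈ s.support
        · exact Finset.single_le_sum (f := fun j => s j) (fun _ _ => Nat.zero_le _) hi
        · rw [Finsupp.notMem_support_iff.1 hi]
          exact Nat.zero_le _
      omega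
    have e := Fintype.equivFin (M n d)
    exact ⟨Fintype.card (M n d), fun a i => (e.symm a i : ℕ), H e F, H_sos e F,
      fun x => closure_iff e hF (by omega) x⟩
  refine ⟨h1, fun N h hh => ⟨fun L _ _ z hz => smooth hh L z hz, real_points h, rat_points h⟩,
    fun H N h _ => H (N + 1) {cover h}, fun H n F => ?_⟩
  obtain ⟨N, μ, h, hh, hcl⟩ := h1 n F
  have h2 := (H N h hh).subst
    (Fin.snoc (α := fun _ => MvPolynomial (Fin n) ℚ) (fun a => ∏ i, X i ^ μ a i) 1)
  have h3 : {x : Fin n → ℝ | (fun j => (aeval x ((Fin.snoc (α := fun _ => MvPolynomial (Fin n) ℚ)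
      (fun a => ∏ i, X i ^ μ a i) 1 : Fin (N + 1) → MvPolynomial (Fin n) ℚ) j) : ℝ)) ∈
        closure (ratPoints {cover h})} = closure (ratPoints F) := by
    ext x
    rw [hcl x, Set.mem_ofPred_eq]
    have h4 : (fun j => (aeval x ((Fin.snoc (α := fun _ => MvPolynomial (Fin n) ℚ)
        (fun a => ∏ i, X i ^ μ a i) 1 : Fin (N + 1) → MvPolynomial (Fin n) ℚ) j) : ℝ)) =
        (Fin.snoc (α := fun _ => ℝ) (fun a => ∏ i, x i ^ μ a i) 1 : Fin (N + 1) → ℝ) := by
      funext j
      induction j using Fin.lastCases with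
      | last => rw [Fin.snoc_last, Fin.snoc_last, map_one]
      | cast a =>
        rw [Fin.snoc_castSucc, Fin.snoc_castSucc, map_prod]
        exact Finset.prod_congr rfl fun i _ => by rw [map_pow, aeval_X]
    rw [h4]
  rwa [h3] at h2

end Pool.Agent.Results.MP_42de19_nt.PositiveDoubleCovers
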