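import Pool.Agent.N452.QF.Main

/-!
# The semialgebraic form of Mazur's conjecture for families of quadrics of rank at least five

Let `A(t)` be a symmetric matrix of order `m + 1` whose entries are arbitrary polynomials over `ℚ` in
`t = (t₁, …, t_n)`, and let `X` be the variety

`f(t, y) = ∑ A_ij(t) Y_i Y_j = 0`,  `Y = (1, y₁, …, y_m)`,

a family of (affine) quadrics over the space of the `t`, with arbitrarily bad special fibres. Every
polynomial of degree at most two in the `y_j` is of this form. Suppose that `A(t)` has rank at least
five for some `t`.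

(1) Every real point of `X` at which some partial derivative of `f` does not vanish, and for which
`A(t)` is not zero, is a limit of rational points of `X` (and even of rational points on fibres of
maximal rank). In particular `X(ℚ)` is dense in `X(ℝ)` if `X` is smooth and contains no whole fibre.

(2) If the closure of the set of the remaining rational points (the rational points of `X` which are
singular, or whose whole fibre is contained in `X`) is semialgebraic over `ℚ`, for instance if there
are finitely many of them, then the closure of `X(ℚ)` is semialgebraic over `ℚ`. Nothing is assumed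
on the discriminant `det A(t) = 0`.

(3) If `n = 1`, the closure of `X(ℚ)` is semialgebraic over `ℚ`, without any further hypothesis.

(4) Let `B ⊆ ℚⁿ` be any set of rational points whose closure is semialgebraic over `ℚ` (for instance
the rational points of a variety to which one of the known results applies, such as a family of the
kind considered here: so the theorem can be iterated), and suppose that `A(t)` has the same rank
`r ≥ 5` for all `t ∈ B` outside a finite set. Then the closure of the set of the rational points of
the restriction of the family to `B` is semialgebraic over `ℚ`.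

Proof. (3), (4) and the density of the rational points in a real quadric of rank at least five are
from the unused part of the library `Pool.Agent.R847.QB` (helper847, with Meyer's theorem).
(1): near such a point there are `t` and `y, y'` with `f(t, y) < 0 < f(t, y')` (if the gradient in
the direction of the fibre vanishes, the quadratic form of the fibre has a nonzero value, of one
sign, and the base is moved such that `f` has the other sign at the point); then `t` can be taken
rational, with `A(t)` of maximal rank, and `f(t, ·)` has a real zero close by.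
-/

set_option autoImplicit false

namespace Pool.Agent.Results.MP_42de19_nt.QuadricFamilies

open MvPolynomial

/-- Semialgebraic sets defined over `ℚ`: the finite unions of sets
`{p = 0, q₁ > 0, …, q_k > 0}`, where `p` and the `qᵢ` are polynomials with rational
coefficients. -/
def Semialgebraic {n : ℕ} (S : Set (Fin n → ℝ)) : Prop :=
  ∃ (m : ℕ) (P : Fin m → MvPolynomial (Fin n) ℚ) (G : Fin m → Finset (MvPolynomial (Fin n) ℚ)),
    S = {x : Fin n → ℝ | ∃ j : Fin m, (aeval x (P j) : ℝ) = 0 ∧
      ∀ g ∈ G j, (0 : ℝ) < aeval x g}

/-- The closure in `ℝ^N` of the set `D` of rational points. -/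
def realClosure {N : ℕ} (D : Set (Fin N → ℚ)) : Set (Fin N → ℝ) :=
  closure {x : Fin N → ℝ | ∃ u ∈ D, x = fun k => (u k : ℝ)}

variable {n m : ℕ}

/-- The vector `(1, y₁, …, y_m)`; the variables are `(t₁, …, t_n, y₁, …, y_m)`. -/
noncomputable def coordinates (n m : ℕ) : Fin (m + 1) → MvPolynomial (Fin (n + m)) ℚ :=
  Fin.cons 1 fun j => X (Fin.natAdd n j)

/-- The polynomial `f(t, y) = ∑ A_ij(t) Y_i Y_j`, `Y = (1, y₁, …, y_m)`. -/
noncomputable def equation (A : Matrix (Fin (m + 1)) (Fin (m + 1)) (MvPolynomial (Fin n) ℚ)) :
    MvPolynomial (Fin (n + m)) ℚ :=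
  ∑ i, ∑ j, rename (Fin.castAdd m) (A i j) * coordinates n m i * coordinates n m j

/-- The rational points `(t, y)` of the family with `t ∈ B`. -/
def points (A : Matrix (Fin (m + 1)) (Fin (m + 1)) (MvPolynomial (Fin n) ℚ))
    (B : Set (Fin n → ℚ)) : Set (Fin (n + m) → ℚ) :=
  {x | (fun i => x (Fin.castAdd m i)) ∈ B ∧ eval x (equation A) = 0}

/-- The rational points of the family at which all partial derivatives of `f` vanish, or with
`A(t) = 0`. -/
def exceptional (A : Matrix (Fin (m + 1)) (Fin (m + 1)) (MvPolynomial (Fin n) ℚ)) :
    Set (Fin (n + m) → ℚ) :=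
  {x | eval x (equation A) = 0 ∧ ((∀ k, eval x (pderiv k (equation A)) = 0) ∨
    A.map (eval fun i => x (Fin.castAdd m i)) = 0)}

theorem result :
    -- (1), (2), (3): families over affine space
    (∀ (n m : ℕ) (A : Matrix (Fin (m + 1)) (Fin (m + 1)) (MvPolynomial (Fin n) ℚ)), A.IsSymm →
      (∃ t : Fin n → ℚ, 5 ≤ (A.map (eval t)).rank) →
      (∀ x : Fin (n + m) → ℝ, (aeval x (equation A) : ℝ) = 0 →
        (∃ k, (aeval x (pderiv k (equation A)) : ℝ) ≠ 0) →
        (∃ i j, (aeval (fun l => x (Fin.castAdd m l)) (A i j) : ℝ) ≠ 0) →
        x ∈ realClosure {u | u ∈ points A Set.univ ∧ ∀ t : Fin n → ℚ,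
          (A.map (eval t)).rank ≤ (A.map (eval fun l => u (Fin.castAdd m l))).rank}) ∧
      (Semialgebraic (realClosure (exceptional A)) →
        Semialgebraic (realClosure (points A Set.univ))) ∧
      ((exceptional A).Finite → Semialgebraic (realClosure (points A Set.univ))) ∧
      (n = 1 → Semialgebraic (realClosure (points A Set.univ)))) ∧
    -- (4): families over arbitrary bases
    (∀ (n m : ℕ) (A : Matrix (Fin (m + 1)) (Fin (m + 1)) (MvPolynomial (Fin n) ℚ)), A.IsSymm →
      ∀ B : Set (Fin n → ℚ), Semialgebraic (realClosure B) →
      ∀ r : ℕ, 5 ≤ r → {t | t ∈ B ∧ (A.map (eval t)).rank ≠ r}.Finite →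
        Semialgebraic (realClosure (points A B))) := by
  refine ⟨fun n m A hA h5 => ⟨?_, ?_, ?_, ?_⟩, ?_⟩
  · intro x hx hk hij
    obtain ⟨r, hr, hne, hmax⟩ := N452.QF.exists_max A h5
    have hA0 : R847.QB.atr A (R847.QB.bs x) ≠ 0 := by
      intro h
      obtain ⟨i, j, h2⟩ := hij
      exact h2 (congrFun (congrFun h i) j)
    have h := N452.QF.real_lim hA hr hne hmax x hx hA0 hk
    refine closure_mono ?_ h
    rintro _ ⟨u, hu, rfl⟩
    refine ⟨u, ⟨⟨trivial, ?_⟩, fun t => ?_⟩, rfl⟩
    · have := N452.QF.eval_equation A u
      exact this.trans hu.2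
    · exact (hmax t).trans hu.1.ge
  · exact N452.QF.affine_base hA h5
  · exact fun h => N452.QF.affine_base hA h5 (N452.QF.tame_finite h)
  · rintro rfl
    have h := R847.QB.main3 hA h5
    rw [← N452.QF.points_eq] at h
    exact (N452.QF.tame_iff _).2 h
  · intro n m A hA B hB r hr hfin
    have h := R847.QB.main2 hA ((N452.QF.tame_iff B).1 hB) hr hfin
    rw [← N452.QF.points_eq] at h
    exact (N452.QF.tame_iff _).2 h

end Pool.Agent.Results.MP_42de19_nt.QuadricFamilies
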