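import Pool.Agent.TH729.SQ.Tri
import Pool.Agent.TH729.BQ.R6
import Pool.Agent.W279.TriR.Clopen

/-!
# The semialgebraic form of Mazur's conjecture for the surfaces of tridegree `(2,2,2)`

`K` is a number field and `F` a form of tridegree `(2,2,2)` over `K`, in the variables
`X (0,0), X (0,1); X (1,0), X (1,1); X (2,0), X (2,1)`, such that the surface `F = 0` in
`P¹ × P¹ × P¹` has only finitely many singular points and contains no fibre of the three
projections to `P¹ × P¹`. The smooth surfaces of this kind are K3 surfaces. `X` denotes the affine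
surface `F(x₀,1,x₁,1,x₂,1) = 0`, and `σ` a real embedding of `K`.

(1) The closure of `X(K)` in `ℝ³` is semialgebraic over `ℚ`.

(2) There is a finite set `T` of `K`-rational points of `X` such that for all `σ` each smooth point
of `X(ℝ)` in the closure of `X(K)` is the image of a point of `T`, or the closure contains the whole
connected component of this point in the set of the smooth real points. So with at most finitely
many exceptions, isolated in the closure, the points of the closure form a union of connected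
components: this is Mazur's original conjecture, up to these exceptions.

(3) If the surface has no singular real points (for `σ`), then the closure has an explicit form:
there is one polynomial `g` over `ℚ` without zeros on `X(ℝ)` such that the closure is the union of
`{x ∈ X(ℝ) : g(x) > 0}` and of a finite set of images of `K`-rational points.

(4) For `K = ℚ` the closure of the set of the values of rational functions at the rational points of
products of finitely many such surfaces (with any singularities as above) and of affine spaces is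
semialgebraic over `ℚ`.

All rational points are allowed in (1)-(4), without conditions of nondegeneracy.

Ingredients: the local analysis of the three fibrations in curves of genus one
(`Pool.Agent.W279.Tri`, `Pool.Agent.W279.TriR`, helper279) and the theorem on relatively clopen
subsets of semialgebraic sets over `ℚ` (`Pool.Agent.TH729.SQ`, helper729).
-/

set_option autoImplicit false

namespace Pool.Agent.Results.MP_42de19_nt.TriquadraticSurfaces

open MvPolynomial Pool.Agent.W279.Tri Pool.Agent.W279.TriR Pool.Agent.TH729.SQ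
  Pool.Agent.H581R2

/-- Semialgebraic sets defined over `ℚ`: the finite unions of sets
`{p = 0, q₁ > 0, …, q_k > 0}`, where `p` and the `qᵢ` are polynomials with rational
coefficients. -/
def Semialgebraic {n : ℕ} (S : Set (Fin n → ℝ)) : Prop :=
  ∃ (m : ℕ) (P : Fin m → MvPolynomial (Fin n) ℚ) (G : Fin m → Finset (MvPolynomial (Fin n) ℚ)),
    S = {x : Fin n → ℝ | ∃ j : Fin m, (aeval x (P j) : ℝ) = 0 ∧
      ∀ g ∈ G j, (0 : ℝ) < aeval x g}

/-- The hypotheses on the form `F`. -/
structure Admissible {K : Type} [Field K] (F : MvPolynomial (Fin 3 × Fin 2) K) : Prop where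
  /-- `F` has the tridegree `(2,2,2)` -/
  tridegree : ∀ m ∈ F.support, ∀ i : Fin 3, m (i, 0) + m (i, 1) = 2
  /-- no fibre of the projections to two of the factors lies on the surface -/
  noFibre : ∀ (i : Fin 3) (p : Fin 3 → Fin 2 → AlgebraicClosure K), (∀ j, p j ≠ 0) →
    ∃ w : Fin 2 → AlgebraicClosure K,
      aeval (fun q : Fin 3 × Fin 2 => Function.update p i w q.1 q.2) F ≠ 0
  /-- the surface has only finitely many singular points -/
  isolated : ∃ S : Set (Fin 3 → Fin 2 → AlgebraicClosure K), S.Finite ∧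
    ∀ p : Fin 3 → Fin 2 → AlgebraicClosure K, (∀ i, p i ≠ 0) →
      (∀ q : Fin 3 × Fin 2, aeval (fun r : Fin 3 × Fin 2 => p r.1 r.2) (pderiv q F) = 0) →
      ∃ s ∈ S, ∀ i, ∃ t : AlgebraicClosure K, p i = t • s i

/-- The rational points of the affine surface `F(x₀,1,x₁,1,x₂,1) = 0`. -/
def points {K : Type} [Field K] (F : MvPolynomial (Fin 3 × Fin 2) K) : Set (Fin 3 → K) :=
  {x | eval (fun q : Fin 3 × Fin 2 => if q.2 = 0 then x q.1 else 1) F = 0}

/-- The real points of the affine surface, for the real embedding `σ`. -/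
def realPoints {K : Type} [Field K] (F : MvPolynomial (Fin 3 × Fin 2) K) (σ : K →+* ℝ) :
    Set (Fin 3 → ℝ) :=
  {x | eval₂ σ (fun q : Fin 3 × Fin 2 => if q.2 = 0 then x q.1 else 1) F = 0}

/-- The smooth real points of the affine surface: the real points at which one of the six partial
derivatives of the form `F` does not vanish. -/
def smoothPoints {K : Type} [Field K] (F : MvPolynomial (Fin 3 × Fin 2) K) (σ : K →+* ℝ) :
    Set (Fin 3 → ℝ) :=
  {x | x ∈ realPoints F σ ∧ ∃ r : Fin 3 × Fin 2,
    eval₂ σ (fun q : Fin 3 × Fin 2 => if q.2 = 0 then x q.1 else 1) (pderiv r F) ≠ 0}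

/-- The images in `ℝ³` of the points of a set of `K`-rational points. -/
def image {K : Type} [Field K] (σ : K →+* ℝ) (S : Set (Fin 3 → K)) : Set (Fin 3 → ℝ) :=
  {x | ∃ r ∈ S, x = fun i => σ (r i)}

/-- **The closure of the set of the rational points of a surface of tridegree `(2,2,2)`.** -/
theorem result :
    (∀ (K : Type) [Field K] [NumberField K] (F : MvPolynomial (Fin 3 × Fin 2) K),
      Admissible F →
      -- (1) the closure is semialgebraic over `ℚ`
      (∀ σ : K →+* ℝ, Semialgebraic (closure (image σ (points F)))) ∧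
      -- (2) connected components of the set of the smooth real points
      (∃ T ⊆ points F, T.Finite ∧ ∀ σ : K →+* ℝ,
        ∀ x ∈ closure (image σ (points F)), x ∈ smoothPoints F σ → x ∈ image σ T ∨
          connectedComponentIn (smoothPoints F σ) x ⊆ closure (image σ (points F))) ∧
      -- (3) the explicit form in the smooth case
      (∀ σ : K →+* ℝ,
        (∀ p : Fin 3 → Fin 2 → ℝ, (∀ i, p i ≠ 0) →
          ∃ r : Fin 3 × Fin 2, eval₂ σ (fun q : Fin 3 × Fin 2 => p q.1 q.2) (pderiv r F) ≠ 0) →
        ∃ (g : MvPolynomial (Fin 3) ℚ) (T : Set (Fin 3 → K)), T ⊆ points F ∧ T.Finite ∧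
          (∀ x ∈ realPoints F σ, (aeval x g : ℝ) ≠ 0) ∧
          closure (image σ (points F)) =
            {x | x ∈ realPoints F σ ∧ (0 : ℝ) < aeval x g} ∪ image σ T)) ∧
    -- (4) the closure of the values of rational functions at the rational points of products of
    -- such surfaces and of affine spaces
    (∀ (ι κ : Type) [Finite ι] [Finite κ] (F : ι → MvPolynomial (Fin 3 × Fin 2) ℚ),
      (∀ j, Admissible (F j)) →
      ∀ (m : ℕ) (p : Fin m → MvPolynomial ((ι × Fin 3) ⊕ κ) ℚ)
        (q : MvPolynomial ((ι × Fin 3) ⊕ κ) ℚ),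
        Semialgebraic (closure
          {y : Fin m → ℝ | ∃ (x : ι → Fin 3 → ℚ) (u : κ → ℚ),
            (∀ j, x j ∈ points (F j)) ∧ eval (Sum.elim (fun r => x r.1 r.2) u) q ≠ 0 ∧
            ∀ k, y k = ((eval (Sum.elim (fun r => x r.1 r.2) u) (p k) /
              eval (Sum.elim (fun r => x r.1 r.2) u) q : ℚ) : ℝ)})) := by
  have haf : ∀ {R : Type} [Field R] (x : Fin 3 → R),
      (fun q : Fin 3 × Fin 2 => if q.2 = 0 then x q.1 else 1) = fun q => af x q.1 q.2 := by
    intro R _ x
    funext ⟨i, a⟩
    fin_cases a <;> simp [af]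
  have hpt : ∀ {K : Type} [Field K] (c : Fin 3 → Fin 3 → Fin 3 → K) (r : Fin 3 → K),
      r ∈ points (form c) ↔ E c (af r 0) (af r 1) (af r 2) = 0 := by
    intro K _ c r
    change eval (fun q : Fin 3 × Fin 2 => if q.2 = 0 then r q.1 else 1) (form c) = 0 ↔ _
    rw [haf, eval_form]
  have hVK : ∀ {K : Type} [Field K] (c : Fin 3 → Fin 3 → Fin 3 → K) (σ : K →+* ℝ),
      image σ (points (form c)) = VK c σ := by
    intro K _ c σ
    ext x
    constructor
    · rintro ⟨r, hr, rfl⟩
      exact ⟨r, (hpt c r).1 hr, rfl⟩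
    · rintro ⟨r, hr, rfl⟩
      exact ⟨r, (hpt c r).2 hr, rfl⟩
  have hreal : ∀ {K : Type} [Field K] (c : Fin 3 → Fin 3 → Fin 3 → K) (σ : K →+* ℝ)
      (x : Fin 3 → ℝ), x ∈ realPoints (form c) σ ↔
        E (cr c σ) (af x 0) (af x 1) (af x 2) = 0 := by
    intro K _ c σ x
    change eval₂ σ (fun q : Fin 3 × Fin 2 => if q.2 = 0 then x q.1 else 1) (form c) = 0 ↔ _
    rw [haf]
    rw [eval₂_cr c σ (af x)]
  have hsing : ∀ {K : Type} [Field K] (c : Fin 3 → Fin 3 → Fin 3 → K) (σ : K →+* ℝ)
      (p : Fin 3 → Fin 2 → ℝ), ¬ SingX (cr c σ) (p 0) (p 1) (p 2) ↔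
        ∃ r : Fin 3 × Fin 2, eval₂ σ (fun q : Fin 3 × Fin 2 => p q.1 q.2)
          (pderiv r (form c)) ≠ 0 := by
    intro K _ c σ p
    rw [singX_real, not_forall]
  have hsm : ∀ {K : Type} [Field K] (c : Fin 3 → Fin 3 → Fin 3 → K) (σ : K →+* ℝ),
      smoothPoints (form c) σ = Vs (cr c σ) := by
    intro K _ c σ
    ext x
    change (x ∈ realPoints (form c) σ ∧ ∃ r : Fin 3 × Fin 2,
      eval₂ σ (fun q : Fin 3 × Fin 2 => if q.2 = 0 then x q.1 else 1)
        (pderiv r (form c)) ≠ 0) ↔ _
    rw [haf, hreal, ← hsing c σ (af x)]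
    rfl
  have h1 : ∀ (K : Type) [Field K] [NumberField K] (F : MvPolynomial (Fin 3 × Fin 2) K),
      Admissible F → ∃ c : Fin 3 → Fin 3 → Fin 3 → K, F = form c ∧ Nice c := by
    intro K _ _ F hF
    have hF' := hF
    obtain ⟨c, hc⟩ := exists_form hF.tridegree
    subst hc
    exact ⟨c, rfl, nice_of hF'.noFibre hF'.isolated⟩
  refine ⟨fun K _ _ F hF => ?_, fun ι κ _ _ F hF m p q => ?_⟩
  · obtain ⟨c, rfl, hN⟩ := h1 K F hF
    obtain ⟨T, hT, hT1, hT2⟩ := tri_main hN
    refine ⟨fun σ => ?_, ⟨T, fun r hr => (hpt c r).2 (hT1 r hr), hT, fun σ x hx hxs => ?_⟩,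
      fun σ hs => ?_⟩
    · rw [hVK]
      exact SA.frozen (hT2 σ).1
    · rw [hVK] at hx ⊢
      rw [hsm] at hxs ⊢
      exact (hT2 σ).2 x hx hxs
    · obtain ⟨g, T', hT', hT'1, hg, hcl⟩ := semialg hN (σ := σ)
        (fun P hP => (hsing c σ P).2 (hs P hP))
      refine ⟨g, T', fun r hr => (hpt c r).2 (hT'1 r hr), hT', fun x hx => hg x ((hreal c σ x).1 hx),
        ?_⟩
      rw [hVK, hcl]
      ext x
      constructor
      · rintro (⟨h1, h2⟩ | ⟨r, hr, rfl⟩)
        · exact Or.inl ⟨(hreal c σ x).2 h1, h2⟩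
        · exact Or.inr ⟨r, hr, rfl⟩
      · rintro (⟨h1, h2⟩ | ⟨r, hr, rfl⟩)
        · exact Or.inl ⟨(hreal c σ x).1 h1, h2⟩
        · exact Or.inr ⟨r, hr, rfl⟩
  · refine SA.frozen (Pool.Agent.TH729.BQ.vals_SA (fun j => ?_) p q)
    obtain ⟨c, hc, hN⟩ := h1 ℚ (F j) (hF j)
    rw [hc]
    obtain ⟨T, hT, hT1, hT2⟩ := tri_main hN
    have h3 := (hT2 (Rat.castHom ℝ)).1
    rw [← hVK] at h3
    convert h3 using 2
    ext x
    constructor
    · rintro ⟨r, hr, rfl⟩
      exact ⟨r, hr, rfl⟩
    · rintro ⟨r, hr, rfl⟩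
      exact ⟨r, hr, rfl⟩

end Pool.Agent.Results.MP_42de19_nt.TriquadraticSurfaces
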